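import Mathlib

set_option autoImplicit false

namespace Pool.Agent.Results.MP_079cdc_gt.Tree

open Set Filter Topology Metric

/-- Every isometry between two subsets extends to an isometry of the whole space onto itself. -/
def AbsHom (X : Type) [MetricSpace X] : Prop :=
  ∀ (A B : Set X) (f : A ≃ B), (∀ a a' : A, dist (f a : X) (f a') = dist (a : X) a') →
    ∃ g : X ≃ᵢ X, ∀ a : A, g a = f a

section abstract

variable {X : Type} [MetricSpace X]

/-- twice the Gromov product -/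
def gp (o a b : X) : ℝ := dist o a + dist o b - dist a b

structure Tr (X : Type) [MetricSpace X] : Prop where
  four : ∀ o a b c : X, min (gp o a c) (gp o b c) ≤ gp o a b
  geo : ∀ (a b : X) (t : ℝ), 0 ≤ t → t ≤ dist a b → ∃ q, dist a q = t ∧ dist q b = dist a b - t
  le3 : ∀ (p : X) (z : Fin 4 → X), (∀ i, z i ≠ p) → ∃ i j, i ≠ j ∧ 0 < gp p (z i) (z j)
  ge3 : ∀ (p : X) (r : ℝ), 0 < r → ∃ z : Fin 3 → X, (∀ i, dist p (z i) = r) ∧
    ∀ i j, i ≠ j → dist (z i) (z j) = 2 * r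

theorem gp_nonneg (o a b : X) : 0 ≤ gp o a b := by
  unfold gp; linarith [dist_triangle_left a b o]

theorem gp_comm (o a b : X) : gp o a b = gp o b a := by unfold gp; rw [dist_comm a b]; ring

/-- distance from a point of a segment -/
theorem seg (h : Tr X) {o b q : X} (hq : dist o q + dist q b = dist o b) (a : X) :
    gp o a q = min (gp o a b) (2 * dist o q) := by
  have h1 := h.four o a q b
  have h2 := h.four o a b q
  have h3 := dist_triangle o q a
  have h4 := dist_triangle a q b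
  simp only [gp, dist_comm b q, dist_comm q a] at *
  rcases min_le_iff.1 h1 with h1 | h1 <;> rcases min_le_iff.1 h2 with h2 | h2 <;>
    rcases le_total (dist o a + dist o b - dist a b) (2 * dist o q) with h5 | h5 <;>
    simp only [min_eq_left h5, min_eq_right h5] <;> linarith

theorem proj [CompleteSpace X] (h : Tr X) {ι : Type} (u v : ι → X)
    (huv : ∀ i j, dist (v i) (v j) = dist (u i) (u j)) (i₀ : ι) (x : X) :
    ∃ p p' : X, ∀ i, dist p' (v i) = dist p (u i) ∧ dist x (u i) = dist x p + dist p (u i) := by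
  have hg : ∀ i j, gp (v i₀) (v i) (v j) = gp (u i₀) (u i) (u j) := fun i j => by simp only [gp, huv]
  let t : ι → ℝ := fun i => gp (u i₀) (u i) x / 2
  have ht0 : ∀ i, 0 ≤ t i := fun i => div_nonneg (gp_nonneg _ _ _) zero_le_two
  have ht1 : ∀ i, t i ≤ dist (u i₀) x := fun i => by
    simp only [t, gp]; linarith [dist_triangle (u i₀) x (u i), dist_comm x (u i)]
  have ht2 : ∀ i, t i ≤ dist (v i₀) (v i) := fun i => by
    simp only [t, gp, huv]; linarith [dist_triangle (u i₀) (u i) x]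
  have hb : BddAbove (range t) := ⟨_, by rintro _ ⟨i, rfl⟩; exact ht1 i⟩
  have : Nonempty ι := ⟨i₀⟩
  obtain ⟨p, hp, hp'⟩ := h.geo (u i₀) x (⨆ i, t i) ((ht0 i₀).trans (le_ciSup hb i₀)) (ciSup_le ht1)
  choose q hq hq' using fun i => h.geo (v i₀) (v i) (t i) (ht0 i) (ht2 i)
  have h1 : ∀ i j, t i ≤ t j → gp (v i₀) (v i) (q j) = 2 * t i ∨ gp (v i₀) (v i) (q j) = 2 * t j ∧ t i = t j := by
    intro i j hij
    rw [seg h (b := v j) (by rw [hq, hq']; ring), hg, hq]
    have h2 := h.four (u i₀) (u i) (u j) x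
    have h3 := h.four (u i₀) (u i) x (u j)
    rw [gp_comm _ x] at h3
    have e1 : gp (u i₀) (u i) x = 2 * t i := by simp only [t]; ring
    have e2 : gp (u i₀) (u j) x = 2 * t j := by simp only [t]; ring
    rw [e1] at h2 h3; rw [e2] at h2 h3
    rcases hij.lt_or_eq with h4 | h4
    · left
      rcases min_le_iff.1 h2 with h2 | h2 <;> rcases min_le_iff.1 h3 with h3 | h3 <;>
        first | linarith | (rw [min_eq_left (by linarith)]; linarith)
    · right
      rw [h4, min_self] at h2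
      exact ⟨min_eq_right h2, h4⟩
  have h2 : ∀ i j, t i ≤ t j → dist (q j) (v i) = dist (v i₀) (v i) + t j - 2 * t i := by
    intro i j hij
    have := h1 i j hij
    simp only [gp, hq, dist_comm (v i) (q j)] at this
    rcases this with h3 | ⟨h3, h4⟩ <;> linarith
  have h3 : ∀ i j, t i ≤ t j → dist (q i) (q j) = t j - t i := by
    intro i j hij
    have := seg h (o := v i₀) (b := v i) (q := q i) (by rw [hq, hq']; ring) (q j)
    rw [gp_comm _ (q j) (v i), hq] at this
    rcases h1 i j hij with h3 | ⟨h3, h4⟩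
    · rw [h3, min_self] at this
      simp only [gp, hq, dist_comm (q j)] at this; linarith
    · rw [h3, h4, min_self] at this
      simp only [gp, hq, dist_comm (q j)] at this; linarith
  obtain ⟨w, hw, hwt, hwm⟩ := exists_seq_tendsto_sSup (range_nonempty t) hb
  choose k hk using hwm
  have hc : CauchySeq fun n => q (k n) := by
    refine cauchySeq_of_le_tendsto_0' (fun n => sSup (range t) - w n) (fun n m hnm => ?_) ?_
    · rw [h3 _ _ (by rw [hk, hk]; exact hw hnm), hk, hk, ← hk m]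
      linarith [le_csSup hb (mem_range_self (k m))]
    · simpa using (tendsto_const_nhds (x := sSup (range t))).sub hwt
  obtain ⟨p', hp''⟩ := cauchySeq_tendsto_of_complete hc
  refine ⟨p, p', fun i => ?_⟩
  have h4 : t i ≤ ⨆ i, t i := le_ciSup hb i
  have h5 := seg h (o := u i₀) (b := x) (q := p) (by rw [hp, hp']; ring) (u i)
  rw [hp, min_eq_left (by simp only [t] at h4; linarith)] at h5
  simp only [gp, hp, dist_comm (u i)] at h5
  refine ⟨?_, by rw [dist_comm x p]; linarith⟩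
  have h6 : ∀ n, |dist (q (k n)) (v i) - (dist (v i₀) (v i) + sSup (range t) - 2 * t i)| ≤
      2 * (sSup (range t) - w n) := fun n => by
    have h7 : t (k n) ≤ sSup (range t) := le_csSup hb (mem_range_self _)
    have h8 : t i ≤ sSup (range t) := h4
    rw [← hk n, abs_le]
    rcases le_total (t i) (t (k n)) with h9 | h9
    · rw [h2 _ _ h9]; constructor <;> linarith
    · have := h3 _ _ h9
      have := hq' i
      have := dist_triangle (q (k n)) (q i) (v i)
      have := dist_triangle (v i₀) (q (k n)) (v i)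
      have := hq (k n)
      constructor <;> linarith
  have h7 : |dist p' (v i) - (dist (v i₀) (v i) + sSup (range t) - 2 * t i)| ≤ 2 * (sSup (range t) - sSup (range t)) :=
    le_of_tendsto_of_tendsto' ((hp''.dist tendsto_const_nhds).sub tendsto_const_nhds).abs
      ((tendsto_const_nhds.sub hwt).const_mul 2) h6
  rw [sub_self, mul_zero, abs_nonpos_iff, sub_eq_zero, huv] at h7
  rw [h7]
  simp only [t, gp, dist_comm (u i)]
  change _ + (⨆ i, t i) - _ = _
  linarith

theorem onept [CompleteSpace X] (h : Tr X) {ι : Type} (u v : ι → X)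
    (huv : ∀ i j, dist (v i) (v j) = dist (u i) (u j)) (x : X) :
    ∃ y, ∀ i, dist y (v i) = dist x (u i) := by
  rcases isEmpty_or_nonempty ι with h0 | ⟨⟨i₀⟩⟩
  · exact ⟨x, fun i => isEmptyElim i⟩
  obtain ⟨p, p', hp⟩ := proj h u v huv i₀ x
  rcases eq_or_ne x p with rfl | hx
  · exact ⟨p', fun i => (hp i).1⟩
  obtain ⟨z, hz, hz'⟩ := h.ge3 p' (dist x p) (dist_pos.2 hx)
  by_contra hn
  push Not at hn
  choose a ha using fun j => hn (z j)
  have h1 : ∀ j, 0 < gp p' (z j) (v (a j)) := fun j => (gp_nonneg _ _ _).lt_of_ne fun h1 => ha j (by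
    simp only [gp, hz] at h1; linarith [hp (a j)])
  have h2 : ∀ j k, j ≠ k → gp p (u (a j)) (u (a k)) = 0 := fun j k hjk => by
    have e : gp p (u (a j)) (u (a k)) = gp p' (v (a j)) (v (a k)) := by simp only [gp, huv, (hp _).1]
    rw [e]
    by_contra h3
    have h3 := (gp_nonneg _ _ _).lt_of_ne' h3
    have h4 := h.four p' (z j) (z k) (v (a k))
    have h5 := h.four p' (z j) (v (a k)) (v (a j))
    rw [gp_comm _ (v (a k))] at h5
    have h6 : gp p' (z j) (z k) = 0 := by simp only [gp, hz, hz' j k hjk]; ring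
    have := lt_min ((lt_min (h1 j) h3).trans_le h5) (h1 k)
    linarith
  have h3 : ∀ j, gp p x (u (a j)) = 0 := fun j => by
    simp only [gp, dist_comm p x]; linarith [hp (a j)]
  obtain ⟨i, j, hij, h4⟩ := h.le3 p (Fin.cons x fun j => u (a j)) (by
    refine Fin.cases hx fun j h4 => ?_
    have h5 := h1 j
    have h6 := (hp (a j)).1
    rw [show u (a j) = p from h4, dist_self, dist_eq_zero] at h6
    simp [gp, ← h6, dist_comm] at h5)
  revert hij h4
  refine Fin.cases ?_ (fun i => ?_) i <;> refine Fin.cases ?_ (fun j => ?_) j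
  · simp
  · simp [h3]
  · simp [gp_comm p (u _), h3]
  · intro hij
    simp [h2 i j fun h => hij (congrArg _ h)]

theorem absHom [CompleteSpace X] (h : Tr X) : AbsHom X := by
  intro A B f hf
  obtain ⟨M, hM0, hM⟩ := zorn_subset_nonempty {R : Set (X × X) | ∀ p ∈ R, ∀ q ∈ R, dist p.2 q.2 = dist p.1 q.1}
    (fun c hc hch _ => ⟨⋃₀ c, by
      rintro p ⟨a, ha, hp⟩ q ⟨b, hb, hq⟩
      rcases hch.total ha hb with h | h
      · exact hc hb p (h hp) q hq
      · exact hc ha p hp q (h hq), fun s hs => subset_sUnion_of_mem hs⟩)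
    (range fun a : A => ((a : X), (f a : X))) (by rintro _ ⟨a, rfl⟩ _ ⟨b, rfl⟩; exact hf a b)
  have h0 : ∀ x y, (∀ i : M, dist y i.1.2 = dist x i.1.1) → (x, y) ∈ M := fun x y hy =>
    hM.2 (y := insert (x, y) M) (by
      rintro p (rfl | hp) q (rfl | hq)
      · simp
      · exact hy ⟨q, hq⟩
      · rw [dist_comm, dist_comm p.1]; exact hy ⟨p, hp⟩
      · exact hM.1 p hp q hq) (subset_insert _ _) (mem_insert _ _)
  have h1 : ∀ x, ∃ y, (x, y) ∈ M := fun x => by
    obtain ⟨y, hy⟩ := onept h (fun i : M => i.1.1) (fun i => i.1.2) (fun i j => hM.1 _ i.2 _ j.2) x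
    exact ⟨y, h0 x y hy⟩
  have h2 : ∀ y, ∃ x, (x, y) ∈ M := fun y => by
    obtain ⟨x, hx⟩ := onept h (fun i : M => i.1.2) (fun i => i.1.1) (fun i j => (hM.1 _ i.2 _ j.2).symm) y
    exact ⟨x, h0 x y fun i => (hx i).symm⟩
  choose g hg using h1
  have h3 : ∀ x y, (x, y) ∈ M → g x = y := fun x y hxy => by
    have := hM.1 _ (hg x) _ hxy
    simpa using this
  have h4 : Isometry g := Isometry.of_dist_eq fun a b => hM.1 _ (hg a) _ (hg b)
  exact ⟨⟨Equiv.ofBijective g ⟨h4.injective, fun y => (h2 y).imp fun x hx => h3 x y hx⟩, h4⟩,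
    fun a => h3 _ _ (hM0 ⟨a, rfl⟩)⟩

theorem conn (h : Tr X) (a b : X) : ∃ S : Set X, IsPreconnected S ∧ a ∈ S ∧ b ∈ S ∧
    S ⊆ closedBall a (dist a b) := by
  choose q hq hq' using fun t : Icc 0 (dist a b) => h.geo a b t t.2.1 t.2.2
  have h1 : ∀ s t, dist (q s) (q t) = dist s t := fun s t => by
    have h2 := seg h (o := a) (b := b) (q := q t) (by rw [hq, hq']; ring) (q s)
    simp only [gp, hq, hq'] at h2
    rw [Subtype.dist_eq, Real.dist_eq]
    rcases le_total (s : ℝ) t with h3 | h3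
    · rw [min_eq_left (by linarith)] at h2; rw [abs_of_nonpos (by linarith)]; linarith
    · rw [min_eq_right (by linarith)] at h2; rw [abs_of_nonneg (by linarith)]; linarith
  have : PreconnectedSpace (Icc 0 (dist a b)) := isPreconnected_iff_preconnectedSpace.1 isPreconnected_Icc
  refine ⟨range q, isPreconnected_range (Isometry.of_dist_eq h1).continuous,
    ⟨⟨0, le_rfl, dist_nonneg⟩, (dist_eq_zero.1 (hq _)).symm⟩,
    ⟨⟨_, dist_nonneg, le_rfl⟩, dist_eq_zero.1 (by rw [hq']; simp)⟩, ?_⟩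
  rintro _ ⟨t, rfl⟩
  rw [mem_closedBall', hq]; exact t.2.2

end abstract

@[ext] structure Pt where
  ρ : ℝ
  S : Set ℝ
  bdd : ∃ m, ∀ t < m, t ∉ S
  top : ∀ t, ρ ≤ t → t ∉ S
  rc : ∀ t < ρ, ∃ e, t < e ∧ ∀ u, t ≤ u → u < e → (u ∈ S ↔ t ∈ S)

noncomputable def s (a b : Pt) : ℝ := sSup {t | t ≤ a.ρ ∧ t ≤ b.ρ ∧ ∀ u < t, (u ∈ a.S ↔ u ∈ b.S)}

theorem le_s {a b : Pt} {t : ℝ} : t ≤ s a b ↔ t ≤ a.ρ ∧ t ≤ b.ρ ∧ ∀ u < t, (u ∈ a.S ↔ u ∈ b.S) := by
  have hb : BddAbove {t | t ≤ a.ρ ∧ t ≤ b.ρ ∧ ∀ u < t, (u ∈ a.S ↔ u ∈ b.S)} := ⟨a.ρ, fun _ h => h.1⟩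
  refine ⟨fun h => ?_, fun h => le_csSup hb h⟩
  have hn : {t | t ≤ a.ρ ∧ t ≤ b.ρ ∧ ∀ u < t, (u ∈ a.S ↔ u ∈ b.S)}.Nonempty := by
    obtain ⟨m, hm⟩ := a.bdd
    obtain ⟨n, hn⟩ := b.bdd
    refine ⟨min (min a.ρ b.ρ) (min m n), by simp, by simp, fun u hu => ?_⟩
    simp only [lt_min_iff] at hu
    simp [hm u hu.2.1, hn u hu.2.2]
  refine ⟨h.trans (csSup_le hn fun _ h => h.1), h.trans (csSup_le hn fun _ h => h.2.1), fun u hu => ?_⟩
  obtain ⟨v, hv, hv'⟩ := exists_lt_of_lt_csSup hn (hu.trans_le h)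
  exact hv.2.2 u hv'

theorem s_spec (a b : Pt) : s a b ≤ a.ρ ∧ s a b ≤ b.ρ ∧ ∀ u < s a b, (u ∈ a.S ↔ u ∈ b.S) := le_s.1 le_rfl

theorem s_comm (a b : Pt) : s a b = s b a :=
  eq_of_forall_le_iff fun t => by
    rw [le_s, le_s]
    exact ⟨fun h => ⟨h.2.1, h.1, fun u hu => (h.2.2 u hu).symm⟩, fun h => ⟨h.2.1, h.1, fun u hu => (h.2.2 u hu).symm⟩⟩

theorem s_self (a : Pt) : s a a = a.ρ := le_antisymm (s_spec a a).1 (le_s.2 ⟨le_rfl, le_rfl, by simp⟩)

theorem s_ultra (a b c : Pt) : min (s a c) (s b c) ≤ s a b :=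
  le_s.2 ⟨(min_le_left _ _).trans (s_spec _ _).1, (min_le_right _ _).trans (s_spec _ _).1, fun u hu =>
    ((s_spec a c).2.2 u (lt_min_iff.1 hu).1).trans ((s_spec b c).2.2 u (lt_min_iff.1 hu).2).symm⟩

noncomputable instance : MetricSpace Pt where
  dist a b := a.ρ + b.ρ - 2 * s a b
  dist_self a := by rw [s_self]; ring
  dist_comm a b := by rw [s_comm]; ring
  dist_triangle a b c := by
    have h := s_ultra a c b
    rw [s_comm c b] at h
    rcases min_le_iff.1 h with h | h <;> linarith [(s_spec a b).2.1, (s_spec b c).1]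
  eq_of_dist_eq_zero {a b} h := by
    obtain ⟨h1, h2, h3⟩ := s_spec a b
    refine Pt.ext (by linarith) (Set.ext fun u => ?_)
    by_cases hu : u < s a b
    · exact h3 u hu
    · simp [a.top u (by linarith), b.top u (by linarith)]

theorem d_eq (a b : Pt) : dist a b = a.ρ + b.ρ - 2 * s a b := rfl

def trunc (a : Pt) (h : ℝ) (hh : h ≤ a.ρ) : Pt where
  ρ := h
  S := a.S ∩ Iio h
  bdd := a.bdd.imp fun _ hm t ht h' => hm t ht h'.1
  top := fun _ ht h' => not_lt.2 ht h'.2
  rc := fun t ht => by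
    obtain ⟨e, he, he'⟩ := a.rc t (ht.trans_le hh)
    refine ⟨min e h, lt_min he ht, fun u hu hu' => ?_⟩
    simp [he' u hu (lt_min_iff.1 hu').1, ht, (lt_min_iff.1 hu').2]

theorem s_trunc (a b : Pt) (h : ℝ) (hh : h ≤ a.ρ) : s (trunc a h hh) b = min h (s a b) :=
  eq_of_forall_le_iff fun t => by
    rw [le_min_iff, le_s, le_s]
    refine ⟨fun H => ⟨H.1, H.1.trans hh, H.2.1, fun u hu => ?_⟩, fun H => ⟨H.1, H.2.2.1, fun u hu => ?_⟩⟩
    · rw [← H.2.2 u hu]; simp [trunc, show u < h from hu.trans_le H.1]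
    · rw [← H.2.2.2 u hu]; simp [trunc, hu.trans_le H.1]

/-- extend by a constant value `c` up to height `h` -/
def ext (a : Pt) (c : Prop) (h : ℝ) (hh : a.ρ ≤ h) : Pt where
  ρ := h
  S := a.S ∪ {u | c ∧ a.ρ ≤ u ∧ u < h}
  bdd := by
    obtain ⟨m, hm⟩ := a.bdd
    refine ⟨min m a.ρ, fun t ht => ?_⟩
    simp [hm t (lt_min_iff.1 ht).1, (lt_min_iff.1 ht).2]
  top := fun t ht => by simp [a.top t (hh.trans ht), ht]
  rc := fun t ht => by
    by_cases h1 : t < a.ρ
    · obtain ⟨e, he, he'⟩ := a.rc t h1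
      refine ⟨min e a.ρ, lt_min he h1, fun u hu hu' => ?_⟩
      simp [he' u hu (lt_min_iff.1 hu').1, not_le.2 h1, not_le.2 (lt_min_iff.1 hu').2]
    · push Not at h1
      refine ⟨h, ht, fun u hu hu' => ?_⟩
      simp [a.top t h1, a.top u (h1.trans hu), h1, h1.trans hu, ht, hu']

theorem s_ext (a : Pt) (c : Prop) (h : ℝ) (hh : a.ρ ≤ h) : s a (ext a c h hh) = a.ρ :=
  le_antisymm (s_spec _ _).1 (le_s.2 ⟨le_rfl, hh, fun u hu => by simp [ext, not_le.2 hu]⟩)

theorem s_ext2 (a : Pt) (h h' : ℝ) (hh : a.ρ < h) (hh' : a.ρ < h') :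
    s (ext a False h hh.le) (ext a True h' hh'.le) = a.ρ := by
  refine le_antisymm (not_lt.1 fun H => ?_) (le_s.2 ⟨hh.le, hh'.le, fun u hu => by simp [ext, not_le.2 hu]⟩)
  have := (s_spec _ _).2.2 _ H
  simp [ext, a.top _ le_rfl, hh'] at this

theorem tr : Tr Pt where
  four o a b c := by
    have h1 := s_ultra a b c
    have h2 := s_ultra a b o
    have h3 := s_ultra c o a
    have h4 := s_ultra c o b
    simp only [gp, d_eq, s_comm o, s_comm c a, s_comm c b] at *
    by_contra h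
    rw [not_le, lt_min_iff] at h
    rcases min_le_iff.1 h1 with h1 | h1 <;> rcases min_le_iff.1 h2 with h2 | h2 <;>
      rcases min_le_iff.1 h3 with h3 | h3 <;> rcases min_le_iff.1 h4 with h4 | h4 <;> linarith [h.1, h.2]
  geo a b t h0 h1 := by
    rw [d_eq] at h1
    obtain ⟨h2, h3, -⟩ := s_spec a b
    by_cases h : t ≤ a.ρ - s a b
    · refine ⟨trunc a (a.ρ - t) (by linarith), ?_, ?_⟩
      · rw [d_eq, s_comm, s_trunc, s_self, min_eq_left (by linarith)]; simp only [trunc]; ring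
      · rw [d_eq, d_eq, s_trunc, min_eq_right (by linarith)]; simp only [trunc]; ring
    · refine ⟨trunc b (2 * s a b - a.ρ + t) (by linarith), ?_, ?_⟩
      · rw [d_eq, s_comm a (trunc _ _ _), s_trunc, s_comm b a, min_eq_right (by linarith)]; simp only [trunc]; ring
      · rw [d_eq, d_eq, s_trunc, s_self, min_eq_left (by linarith)]; simp only [trunc]; ring
  le3 p z hz := by
    classical
    let k : Fin 4 → Option Bool := fun i => if s p (z i) < p.ρ then none else some (decide (p.ρ ∈ (z i).S))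
    obtain ⟨i, j, hij, h⟩ := Fintype.exists_ne_map_eq_of_card_lt k (by simp)
    refine ⟨i, j, hij, ?_⟩
    have h1 := s_ultra (z i) (z j) p
    simp only [gp, d_eq, s_comm (z _) p] at *
    by_cases hi : s p (z i) < p.ρ <;> by_cases hj : s p (z j) < p.ρ <;> simp [k, hi, hj] at h
    · rcases min_le_iff.1 h1 with h1 | h1 <;> linarith
    have e : ∀ i, ¬ s p (z i) < p.ρ → s p (z i) = p.ρ ∧ p.ρ < (z i).ρ := fun i hi => by
      have h2 := le_antisymm (s_spec p (z i)).1 (not_lt.1 hi)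
      have h3 := dist_pos.2 (hz i).symm
      rw [d_eq] at h3
      exact ⟨h2, by linarith⟩
    obtain ⟨e1, e2⟩ := e i hi
    obtain ⟨e3, e4⟩ := e j hj
    obtain ⟨a, ha, ha'⟩ := (z i).rc _ e2
    obtain ⟨b, hb, hb'⟩ := (z j).rc _ e4
    have h5 : min (min a b) (min (z i).ρ (z j).ρ) ≤ s (z i) (z j) := le_s.2 ⟨by simp, by simp, fun u hu => by
      simp only [lt_min_iff] at hu
      by_cases h6 : u < p.ρ
      · exact ((s_spec p (z i)).2.2 u (by linarith)).symm.trans ((s_spec p (z j)).2.2 u (by linarith))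
      · rw [ha' u (not_lt.1 h6) hu.1.1, hb' u (not_lt.1 h6) hu.1.2, h]⟩
    have := (lt_min (lt_min ha hb) (lt_min e2 e4)).trans_le h5
    linarith
  ge3 p r hr := by
    have h1 : ∀ c, s (trunc p (p.ρ - r) (by linarith)) (ext p c (p.ρ + r) (by linarith)) = p.ρ - r := fun c => by
      rw [s_trunc, s_ext, min_eq_left (by linarith)]
    have h2 := s_ext2 p (p.ρ + r) (p.ρ + r) (by linarith) (by linarith)
    refine ⟨![trunc p (p.ρ - r) (by linarith), ext p False (p.ρ + r) (by linarith),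
      ext p True (p.ρ + r) (by linarith)], fun i => ?_, fun i j hij => ?_⟩
    · fin_cases i <;> simp only [d_eq, Fin.zero_eta, Fin.mk_one, Fin.reduceFinMk, Matrix.cons_val, s_ext]
      · rw [s_comm, s_trunc, s_self, min_eq_left (by linarith)]; simp only [trunc]; ring
      all_goals simp only [ext]; ring
    · fin_cases i <;> fin_cases j <;> (try exact absurd rfl hij) <;>
        simp only [d_eq, Fin.zero_eta, Fin.mk_one, Fin.reduceFinMk, Matrix.cons_val,
          s_comm (ext _ _ _ _) (trunc _ _ _), s_comm (ext _ True _ _) (ext _ False _ _), h1, h2] <;>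
        simp only [ext, trunc] <;> ring

instance : CompleteSpace Pt := by
  refine Metric.complete_of_cauchySeq_tendsto fun a ha => ?_
  have h0 : ∀ x y : Pt, |x.ρ - y.ρ| ≤ dist x y := fun x y => by
    rw [d_eq, abs_le]; constructor <;> linarith [(s_spec x y).1, (s_spec x y).2.1]
  have h1 : CauchySeq fun n => (a n).ρ :=
    (LipschitzWith.of_dist_le_mul (K := 1) (f := Pt.ρ) fun x y => by
      simpa [Real.dist_eq] using h0 x y).cauchySeq_comp ha
  obtain ⟨r, hr⟩ := cauchySeq_tendsto_of_complete h1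
  have h2 : ∀ t < r, ∃ N, ∀ m ≥ N, ∀ n ≥ N, t < s (a m) (a n) := fun t ht => by
    obtain ⟨N, hN⟩ := Metric.cauchySeq_iff.1 ha (r - t) (by linarith)
    obtain ⟨N', hN'⟩ := Metric.tendsto_atTop.1 hr ((r - t) / 2) (by linarith)
    refine ⟨max N N', fun m hm n hn => ?_⟩
    have e1 := hN m (le_of_max_le_left hm) n (le_of_max_le_left hn)
    have e2 := abs_lt.1 (hN' m (le_of_max_le_right hm))
    have e3 := abs_lt.1 (hN' n (le_of_max_le_right hn))
    rw [d_eq] at e1
    linarith [e2.1, e3.1]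
  have h3 : ∀ t < r, ∃ N, ∀ m ≥ N, t < (a m).ρ ∧ ∀ u < t, (u ∈ (a m).S ↔ u < r ∧ ∀ᶠ n in atTop, u ∈ (a n).S) := by
    intro t ht
    obtain ⟨N, hN⟩ := h2 t ht
    refine ⟨N, fun m hm => ⟨(hN m hm m hm).trans_le (s_spec _ _).1, fun u hu => ⟨fun h => ⟨hu.trans ht, ?_⟩, fun h => ?_⟩⟩⟩
    · exact eventually_atTop.2 ⟨N, fun n hn => ((s_spec _ _).2.2 u (hu.trans (hN m hm n hn))).1 h⟩
    · obtain ⟨n, hn, hn'⟩ := (h.2.and (eventually_ge_atTop N)).exists
      exact ((s_spec _ _).2.2 u (hu.trans (hN m hm n hn'))).2 hn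
  let p : Pt := ⟨r, {u | u < r ∧ ∀ᶠ n in atTop, u ∈ (a n).S}, by
      obtain ⟨N, hN⟩ := h3 (r - 1) (by linarith)
      obtain ⟨m, hm⟩ := (a N).bdd
      exact ⟨min m (r - 1), fun t ht h => hm t (lt_min_iff.1 ht).1
        (((hN N le_rfl).2 t (lt_min_iff.1 ht).2).2 h)⟩,
    fun t ht h => not_lt.2 ht h.1, fun t ht => by
      obtain ⟨N, hN⟩ := h3 ((t + r) / 2) (by linarith)
      obtain ⟨e, he, he'⟩ := (a N).rc t (by linarith [(hN N le_rfl).1])
      refine ⟨min e ((t + r) / 2), lt_min he (by linarith), fun u hu hu' => ?_⟩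
      exact ((hN N le_rfl).2 u (lt_min_iff.1 hu').2).symm.trans
        ((he' u hu (lt_min_iff.1 hu').1).trans ((hN N le_rfl).2 t (by linarith)))⟩
  refine ⟨p, Metric.tendsto_atTop.2 fun ε hε => ?_⟩
  obtain ⟨N, hN⟩ := h3 (r - ε / 4) (by linarith)
  obtain ⟨N', hN'⟩ := Metric.tendsto_atTop.1 hr (ε / 2) (by linarith)
  refine ⟨max N N', fun n hn => ?_⟩
  have e1 := hN n (le_of_max_le_left hn)
  have e2 := abs_lt.1 (hN' n (le_of_max_le_right hn))
  have e3 : r - ε / 4 ≤ s (a n) p := le_s.2 ⟨e1.1.le, by simp only [p]; linarith, e1.2⟩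
  rw [d_eq]
  simp only [p] at e3 ⊢
  linarith [e2.2]

def o : Pt := ⟨0, ∅, ⟨0, by simp⟩, by simp, fun t _ => ⟨t + 1, by simp, by simp⟩⟩

theorem result : ∃ (X : Type) (_ : MetricSpace X), CompleteSpace X ∧ AbsHom X ∧ ConnectedSpace X ∧
    LocallyConnectedSpace X ∧ ¬ LocallyCompactSpace X := by
  refine ⟨Pt, inferInstance, inferInstance, absHom tr, ?_, ?_, fun h => ?_⟩
  · refine @ConnectedSpace.mk _ _ ⟨isPreconnected_of_forall o fun y _ => ?_⟩ ⟨o⟩
    obtain ⟨S, h1, h2, h3, -⟩ := conn tr o y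
    exact ⟨S, subset_univ _, h2, h3, h1⟩
  · refine locallyConnectedSpace_of_connected_bases (fun x r => ball x r) (fun _ r => 0 < r)
      (fun x => nhds_basis_ball) fun x r hr => isPreconnected_of_forall x fun y hy => ?_
    obtain ⟨S, h1, h2, h3, h4⟩ := conn tr x y
    exact ⟨S, h4.trans (closedBall_subset_ball (mem_ball'.1 hy)), h2, h3, h1⟩
  obtain ⟨r, hr, hc⟩ := exists_isCompact_closedBall o
  have ht : ∀ n : ℕ, 0 < r / (n + 2) ∧ r / (n + 2) < r := fun n =>
    ⟨by positivity, div_lt_self hr (by linarith [n.cast_nonneg (α := ℝ)])⟩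
  let e : ℕ → Pt := fun n => ext (ext o False (r / (n + 2)) (ht n).1.le) True r (ht n).2.le
  have h1 : ∀ n, e n ∈ closedBall o r := fun n => by
    have : 0 ≤ s o (e n) := le_s.2 ⟨le_rfl, hr.le, fun u hu => by
      simp [e, ext, o, not_le.2 (hu.trans (ht n).1)]⟩
    rw [mem_closedBall', d_eq]
    simp only [e, ext, o] at this ⊢
    linarith
  obtain ⟨x, -, φ, hφ, hx⟩ := hc.tendsto_subseq h1
  obtain ⟨N, hN⟩ := Metric.cauchySeq_iff.1 hx.cauchySeq r hr
  have h2 := hN N le_rfl (N + 1) (by omega)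
  have h3 : (φ N : ℝ) < φ (N + 1) := by exact_mod_cast hφ (lt_add_one N)
  have h4 : r / (φ (N + 1) + 2) < r / (φ N + 2) := div_lt_div_of_pos_left hr (by positivity) (by linarith)
  have h5 : r / (φ (N + 1) + 2) ≤ r / 2 := div_le_div_of_nonneg_left hr.le (by norm_num) (by simp)
  have h6 : s (e (φ N)) (e (φ (N + 1))) ≤ r / (φ (N + 1) + 2) := not_lt.1 fun h => by
    have := (s_spec _ _).2.2 _ h
    simp [e, ext, o, not_le.2 h4, (ht _).2] at this
  rw [Function.comp, Function.comp, d_eq] at h2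
  simp only [e, ext] at h2 h6
  linarith

end Pool.Agent.Results.MP_079cdc_gt.Tree
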